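import Pool.Agent.Helper35.PQF.St

set_option autoImplicit false

/-!
Module GR2 of project PM: exponential lower bound for the number of conjugacy classes.
-/

open Filter Topology Matrix Set

namespace Helper48.PM

open Pool.Agent.Helper35.PM

theorem hs_one : hs (1 : Mat) = 2 := by
  unfold hs
  rw [Fin.sum_univ_two, Fin.sum_univ_two, Fin.sum_univ_two]
  simp
  norm_num

theorem hs_word {Γ : Type} [Group Γ] (hs1 : St_HS1) (ρ : Γ →* SL) (m : ℝ) (hm : 0 ≤ m)
    (l : List Γ) (h : ∀ x ∈ l, hs (ρ x : Mat) ≤ m) :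
    hs (ρ l.prod : Mat) ≤ 2 * m ^ l.length := by
  induction l with
  | nil =>
    rw [List.prod_nil, map_one, Matrix.SpecialLinearGroup.coe_one, hs_one, List.length_nil,
      pow_zero, mul_one]
  | cons x l ih =>
    rw [List.prod_cons, map_mul, Matrix.SpecialLinearGroup.coe_mul, List.length_cons]
    have h1 := hs1.1 (ρ x : Mat) (ρ l.prod : Mat)
    have h2 := ih (fun y hy => h y (List.mem_cons_of_mem _ hy))
    have h3 := h x List.mem_cons_self
    have h0 : 0 ≤ hs (ρ l.prod : Mat) := by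
      have := hs1.2.2.1 (ρ l.prod)
      linarith
    calc _ ≤ hs (ρ x : Mat) * hs (ρ l.prod : Mat) := h1
      _ ≤ m * (2 * m ^ l.length) := mul_le_mul h3 h2 h0 hm
      _ = _ := by ring

theorem two_mul_le (k : ℕ) : 2 * (k + 1) ≤ 2 ^ (k + 1) := by
  induction k with
  | zero => norm_num
  | succ k ih =>
    rw [pow_succ]
    omega

theorem gr2 (hs1 : St_HS1) (hs2 : St_HS2) (ln : St_LN) (gr1 : St_GR1) : St_GR2 := by
  intro g hg ρ hfin
  obtain ⟨a, b, hab⟩ := gr1 g hg
  obtain ⟨m, hm⟩ : ∃ m : ℝ, m = max (hs (ρ a : Mat)) (hs (ρ b : Mat)) := ⟨_, rfl⟩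
  have ha : hs (ρ a : Mat) ≤ m := by rw [hm]; exact le_max_left _ _
  have hb : hs (ρ b : Mat) ≤ m := by rw [hm]; exact le_max_right _ _
  have hm2 : 2 ≤ m := (hs1.2.2.1 (ρ a)).trans ha
  obtain ⟨L, hL⟩ : ∃ L : ℝ, L = Real.log (2 * m) := ⟨_, rfl⟩
  have hL0 : 0 < L := by
    rw [hL]
    exact Real.log_pos (by linarith)
  have mono : ∀ T T' : ℝ, T ≤ T' → num ρ T ≤ num ρ T' := by
    intro T T' h
    exact Set.ncard_le_ncard (fun c hc => le_trans (show len ρ c ≤ T from hc) h) (hfin T')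
  -- the bound for words
  have key : ∀ n : ℕ, 1 ≤ n → 2 ^ n ≤ n * num ρ (n * L) := by
    intro n hn
    refine (hab n hn).trans (Nat.mul_le_mul_left n ?_)
    refine Set.ncard_le_ncard ?_ (hfin _)
    rintro c ⟨w, rfl⟩
    change len ρ _ ≤ n * L
    rw [ln]
    have h1 := hs_word hs1 ρ m (by linarith) (List.ofFn (fun i => if w i then a else b)) (by
      intro x hx
      rw [List.mem_ofFn] at hx
      obtain ⟨i, rfl⟩ := hx
      split_ifs
      · exact ha
      · exact hb)
    rw [List.length_ofFn] at h1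
    have h2 := (hs2.2.2.1 (ρ (List.ofFn (fun i => if w i then a else b)).prod)).2
    have h3 : (2 : ℝ) * m ^ n ≤ (2 * m) ^ n := by
      rw [mul_pow]
      refine mul_le_mul_of_nonneg_right ?_ (by positivity)
      calc (2 : ℝ) = 2 ^ 1 := by norm_num
        _ ≤ 2 ^ n := pow_le_pow_right₀ (by norm_num) hn
    have h4 := h2.trans (h1.trans h3)
    have h5 : Real.exp (n * L) = (2 * m) ^ n := by
      rw [hL, mul_comm, Real.exp_mul, Real.exp_log (by linarith), Real.rpow_natCast]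
    rw [← h5] at h4
    exact Real.exp_le_exp.1 h4
  have key2 : ∀ k : ℕ, 1 ≤ k → 2 ^ k ≤ num ρ (2 * k * L) := by
    intro k hk
    have h1 := key (2 * k) (by omega)
    have h2 : 2 * k ≤ 2 ^ k := by
      obtain ⟨j, rfl⟩ := Nat.exists_eq_add_of_le' hk
      exact two_mul_le j
    have h3 : 2 ^ k * 2 ^ k ≤ 2 ^ k * num ρ (2 * k * L) := by
      calc 2 ^ k * 2 ^ k = 2 ^ (2 * k) := by rw [← pow_add]; congr 1; ring
        _ ≤ 2 * k * num ρ ((2 * k : ℕ) * L) := h1
        _ = 2 * k * num ρ (2 * k * L) := by push_cast; rfl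
        _ ≤ 2 ^ k * num ρ (2 * k * L) := Nat.mul_le_mul_right _ h2
    exact Nat.le_of_mul_le_mul_left h3 (by positivity)
  refine ⟨1 / (8 * L), 4 * L, by positivity, fun T hT => ?_⟩
  obtain ⟨k, hk⟩ : ∃ k : ℕ, k = ⌊T / (2 * L)⌋₊ := ⟨_, rfl⟩
  have hx : 2 ≤ T / (2 * L) := by
    rw [le_div_iff₀ (by positivity)]
    linarith
  have hk1 : (k : ℝ) ≤ T / (2 * L) := by
    rw [hk]
    exact Nat.floor_le (by linarith)
  have hk2 : T / (2 * L) < k + 1 := by
    rw [hk]
    exact Nat.lt_floor_add_one _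
  have hk3 : 1 ≤ k := by
    have : (0 : ℝ) < k := by linarith
    exact_mod_cast this
  have h1 := (key2 k hk3).trans (mono _ _ (show 2 * (k : ℝ) * L ≤ T by
    rw [le_div_iff₀ (by positivity)] at hk1
    linarith))
  have h2 : (2 : ℝ) ^ k ≤ num ρ T := by exact_mod_cast h1
  refine le_trans ?_ h2
  have h3 : Real.exp (1 / 2) ≤ 2 := by
    have h4 : Real.exp (1 / 2) * Real.exp (1 / 2) = Real.exp 1 := by
      rw [← Real.exp_add]
      norm_num
    have h5 := Real.exp_one_lt_d9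
    by_contra hc
    rw [not_le] at hc
    nlinarith
  calc Real.exp (1 / (8 * L) * T) ≤ Real.exp ((k : ℝ) * (1 / 2)) := by
        apply Real.exp_le_exp.2
        have e : 1 / (8 * L) * T = T / (2 * L) / 4 := by
          field_simp
          ring
        rw [e]
        linarith
    _ = Real.exp (1 / 2) ^ k := by rw [Real.exp_nat_mul]
    _ ≤ 2 ^ k := pow_le_pow_left₀ (Real.exp_pos _).le h3 k

end Helper48.PM
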