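import Pool.Agent.Helper62.PM.St2

/-!
# Project PM, module XL: Lipschitz estimate along rotations
-/

set_option autoImplicit false

open MeasureTheory Metric Set Filter Topology Polynomial
open scoped RealInnerProductSpace ContDiff

namespace Pool.Agent.Helper48.PM

open Pool.Agent.Helper62.PM
open Pool.Agent.Helper62.Mink

/-- the open set off the origin -/
private def U (n : ℕ) : Set (ℝ × E n) := {p | p.2 ≠ 0}

private theorem isOpen_U (n : ℕ) : IsOpen (U n) := _root_.isOpen_ne.preimage continuous_snd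

private theorem fd {n : ℕ} {F : ℝ × E n → ℝ} (hF : ContDiffOn ℝ ∞ F (U n)) :
    ContDiffOn ℝ ∞ (fderiv ℝ F) (U n) := hF.fderiv_of_isOpen (isOpen_U n) (by simp)

private theorem cda {n : ℕ} {V : Type*} [NormedAddCommGroup V] [NormedSpace ℝ V]
    {F : ℝ × E n → V} (hF : ContDiffOn ℝ ∞ F (U n)) {x : E n} (hx : x ≠ 0) (s : ℝ) :
    ContDiffAt ℝ ∞ F (s, x) := hF.contDiffAt ((isOpen_U n).mem_nhds hx)

private theorem dfa {n : ℕ} {V : Type*} [NormedAddCommGroup V] [NormedSpace ℝ V]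
    {F : ℝ × E n → V} (hF : ContDiffOn ℝ ∞ F (U n)) {x : E n} (hx : x ≠ 0) (s : ℝ) :
    DifferentiableAt ℝ F (s, x) := (cda hF hx s).differentiableAt (by simp)

private theorem ds {n : ℕ} {V : Type*} [NormedAddCommGroup V] [NormedSpace ℝ V]
    {F : ℝ × E n → V} (hF : ContDiffOn ℝ ∞ F (U n)) {x : E n} (hx : x ≠ 0) (s : ℝ) :
    HasDerivAt (fun s => F (s, x)) (fderiv ℝ F (s, x) (1, 0)) s := by
  have h1 : HasDerivAt (fun s : ℝ => (s, x)) ((1 : ℝ), (0 : E n)) s :=
    (hasDerivAt_id s).prodMk (hasDerivAt_const s x)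
  exact (dfa hF hx s).hasFDerivAt.comp_hasDerivAt s h1

private theorem dx {n : ℕ} {F : ℝ × E n → ℝ} (hF : ContDiffOn ℝ ∞ F (U n)) {x : E n} (hx : x ≠ 0)
    (s : ℝ) (v : E n) : fderiv ℝ (fun y => F (s, y)) x v = fderiv ℝ F (s, x) (0, v) := by
  have h1 : HasFDerivAt (fun y : E n => (s, y)) (ContinuousLinearMap.inr ℝ ℝ (E n)) x :=
    hasFDerivAt_prodMk_right s x
  have h2 : HasFDerivAt (fun y => F (s, y))
      ((fderiv ℝ F (s, x)).comp (ContinuousLinearMap.inr ℝ ℝ (E n))) x :=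
    (dfa hF hx s).hasFDerivAt.comp x h1
  rw [h2.fderiv]
  rfl

private theorem jX {n : ℕ} {F : ℝ × E n → ℝ} (hF : ContDiffOn ℝ ∞ F (U n)) (a b : E n) :
    ContDiffOn ℝ ∞ (fun p : ℝ × E n => Xd a b (fun y => F (p.1, y)) p.2) (U n) := by
  have h0 : ContDiff ℝ ∞ (fun p : ℝ × E n =>
      ((0 : ℝ), (inner ℝ a p.2 : ℝ) • b - (inner ℝ b p.2 : ℝ) • a)) :=
    contDiff_const.prodMk (((contDiff_const.inner ℝ contDiff_snd).smul contDiff_const).sub
      ((contDiff_const.inner ℝ contDiff_snd).smul contDiff_const))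
  have h1 : ContDiffOn ℝ ∞ (fun p : ℝ × E n =>
      fderiv ℝ F p ((0 : ℝ), (inner ℝ a p.2 : ℝ) • b - (inner ℝ b p.2 : ℝ) • a)) (U n) :=
    (fd hF).clm_apply h0.contDiffOn
  refine h1.congr fun p hp => ?_
  exact dx hF (x := p.2) hp p.1 _

private theorem jD {n : ℕ} {F : ℝ × E n → ℝ} (hF : ContDiffOn ℝ ∞ F (U n)) :
    ContDiffOn ℝ ∞ (fun p : ℝ × E n => fderiv ℝ F p (1, 0)) (U n) :=
  (fd hF).clm_apply contDiffOn_const

private theorem comm {n : ℕ} {F : ℝ × E n → ℝ} (hF : ContDiffOn ℝ ∞ F (U n)) (a b : E n) {x : E n}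
    (hx : x ≠ 0) (s : ℝ) :
    HasDerivAt (fun s => Xd a b (fun y => F (s, y)) x)
      (Xd a b (fun y => fderiv ℝ F (s, y) (1, 0)) x) s := by
  set v : E n := (inner ℝ a x : ℝ) • b - (inner ℝ b x : ℝ) • a with hv
  have h1 : (fun s => Xd a b (fun y => F (s, y)) x) = fun s => fderiv ℝ F (s, x) (0, v) := by
    funext s
    exact dx hF hx s v
  have h2 : Xd a b (fun y => fderiv ℝ F (s, y) (1, 0)) x =
      fderiv ℝ (fun p : ℝ × E n => fderiv ℝ F p (1, 0)) (s, x) (0, v) := dx (jD hF) hx s v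
  have h3 : HasDerivAt (fun s => fderiv ℝ F (s, x)) (fderiv ℝ (fderiv ℝ F) (s, x) (1, 0)) s :=
    ds (fd hF) hx s
  have h4 := h3.clm_apply (hasDerivAt_const s ((0 : ℝ), v))
  have h5 : fderiv ℝ (fun p : ℝ × E n => fderiv ℝ F p (1, 0)) (s, x) (0, v) =
      fderiv ℝ (fderiv ℝ F) (s, x) (0, v) (1, 0) := by
    have h6 := ((dfa (fd hF) hx s).hasFDerivAt).clm_apply
      (hasFDerivAt_const ((1 : ℝ), (0 : E n)) (s, x))
    rw [h6.fderiv]
    simp
  have h7 : IsSymmSndFDerivAt ℝ F (s, x) := by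
    apply (cda hF hx s).isSymmSndFDerivAt
    simp only [minSmoothness_of_isRCLikeNormedField]
    exact WithTop.coe_le_coe.2 (le_top : (2 : ℕ∞) ≤ ⊤)
  have h8 : fderiv ℝ (fderiv ℝ F) (s, x) (0, v) (1, 0) =
      fderiv ℝ (fderiv ℝ F) (s, x) (1, 0) (0, v) := h7 (0, v) (1, 0)
  rw [h1, h2, h5, h8]
  simpa using h4

/-- congruence off the origin -/
private theorem xw_congr {n : ℕ} {φ ψ : E n → ℝ} (h : ∀ x, x ≠ 0 → φ x = ψ x)
    (w : List (Fin n × Fin n)) : ∀ x, x ≠ 0 → Xw w φ x = Xw w ψ x := by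
  induction w with
  | nil => exact h
  | cons q w ih =>
    intro x hx
    have h1 : Xw w φ =ᶠ[𝓝 x] Xw w ψ := by
      filter_upwards [_root_.isOpen_ne.mem_nhds hx] with y hy
      exact ih y hy
    show fderiv ℝ (Xw w φ) x _ = fderiv ℝ (Xw w ψ) x _
    rw [h1.fderiv_eq]

/-- iterated derivatives of a family -/
private theorem xw_fam {n : ℕ} {F : ℝ × E n → ℝ} (hF : ContDiffOn ℝ ∞ F (U n))
    (w : List (Fin n × Fin n)) :
    ContDiffOn ℝ ∞ (fun p : ℝ × E n => Xw w (fun y => F (p.1, y)) p.2) (U n) ∧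
    ∀ x : E n, x ≠ 0 → ∀ s : ℝ, HasDerivAt (fun s => Xw w (fun y => F (s, y)) x)
      (Xw w (fun y => fderiv ℝ F (s, y) (1, 0)) x) s := by
  induction w with
  | nil => exact ⟨hF, fun x hx s => ds hF hx s⟩
  | cons q w ih =>
    obtain ⟨i1, i2⟩ := ih
    refine ⟨jX i1 _ _, fun x hx s => ?_⟩
    have h1 := comm i1 (EuclideanSpace.single q.1 (1 : ℝ)) (EuclideanSpace.single q.2 (1 : ℝ)) hx s
    have h2 : Xd (EuclideanSpace.single q.1 (1 : ℝ)) (EuclideanSpace.single q.2 (1 : ℝ))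
        (fun y => fderiv ℝ (fun p : ℝ × E n => Xw w (fun y => F (p.1, y)) p.2) (s, y) (1, 0)) x =
        Xw (q :: w) (fun y => fderiv ℝ F (s, y) (1, 0)) x := by
      have h3 : (fun y => fderiv ℝ (fun p : ℝ × E n => Xw w (fun y => F (p.1, y)) p.2) (s, y)
          (1, 0)) =ᶠ[𝓝 x] Xw w (fun y => fderiv ℝ F (s, y) (1, 0)) := by
        filter_upwards [_root_.isOpen_ne.mem_nhds hx] with y hy
        exact (ds i1 hy s).unique (i2 y hy s)
      show fderiv ℝ _ x _ = fderiv ℝ _ x _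
      rw [h3.fderiv_eq]
    rw [h2] at h1
    exact h1

private theorem rp_smooth {n : ℕ} (a b : E n) :
    ContDiff ℝ ∞ (fun p : ℝ × E n => rp a b p.1 p.2) := by
  unfold rp
  have h1 : ContDiff ℝ ∞ (fun p : ℝ × E n => Real.cos p.1) := Real.contDiff_cos.comp contDiff_fst
  have h2 : ContDiff ℝ ∞ (fun p : ℝ × E n => Real.sin p.1) := Real.contDiff_sin.comp contDiff_fst
  have h3 : ∀ c : E n, ContDiff ℝ ∞ (fun p : ℝ × E n => (inner ℝ c p.2 : ℝ)) :=
    fun c => contDiff_const.inner ℝ contDiff_snd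
  exact (contDiff_snd.add ((((h1.sub contDiff_const).mul (h3 a)).sub (h2.mul (h3 b))).smul
    contDiff_const)).add (((h2.mul (h3 a)).add ((h1.sub contDiff_const).mul (h3 b))).smul
    contDiff_const)

private theorem rp_deriv {n : ℕ} (a b x : E n) (h : ON (a, b)) (s : ℝ) :
    HasDerivAt (fun s => rp a b s x)
      ((inner ℝ a (rp a b s x) : ℝ) • b - (inner ℝ b (rp a b s x) : ℝ) • a) s := by
  obtain ⟨ha, hb, hab⟩ := h
  have ha' : (inner ℝ a a : ℝ) = 1 := by
    rw [real_inner_self_eq_norm_sq]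
    have : ‖a‖ = 1 := ha
    rw [this]; norm_num
  have hb' : (inner ℝ b b : ℝ) = 1 := by
    rw [real_inner_self_eq_norm_sq]
    have : ‖b‖ = 1 := hb
    rw [this]; norm_num
  have hab' : (inner ℝ a b : ℝ) = 0 := hab
  have hba' : (inner ℝ b a : ℝ) = 0 := by rw [real_inner_comm]; exact hab
  have h1 : HasDerivAt (fun s => ((Real.cos s - 1) * inner ℝ a x - Real.sin s * inner ℝ b x))
      (-Real.sin s * inner ℝ a x - Real.cos s * inner ℝ b x) s :=
    (((Real.hasDerivAt_cos s).sub_const 1).mul_const _).sub ((Real.hasDerivAt_sin s).mul_const _)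
  have h2 : HasDerivAt (fun s => (Real.sin s * inner ℝ a x + (Real.cos s - 1) * inner ℝ b x))
      (Real.cos s * inner ℝ a x + -Real.sin s * inner ℝ b x) s :=
    ((Real.hasDerivAt_sin s).mul_const _).add (((Real.hasDerivAt_cos s).sub_const 1).mul_const _)
  have h3 := ((h1.smul_const a).const_add x).add (h2.smul_const b)
  have h4 : (inner ℝ a (rp a b s x) : ℝ) = Real.cos s * inner ℝ a x - Real.sin s * inner ℝ b x := by
    unfold rp
    rw [inner_add_right, inner_add_right, inner_smul_right, inner_smul_right, ha', hab']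
    ring
  have h5 : (inner ℝ b (rp a b s x) : ℝ) = Real.cos s * inner ℝ b x + Real.sin s * inner ℝ a x := by
    unfold rp
    rw [inner_add_right, inner_add_right, inner_smul_right, inner_smul_right, hb', hba']
    ring
  rw [h4, h5]
  have h6 : (fun s => rp a b s x) = fun s =>
      x + ((Real.cos s - 1) * inner ℝ a x - Real.sin s * inner ℝ b x) • a +
        (Real.sin s * inner ℝ a x + (Real.cos s - 1) * inner ℝ b x) • b := rfl
  rw [h6]
  refine h3.congr_deriv ?_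
  module

/-- XL. -/
theorem hXL : StA → StXA → StXL := by
  intro hA hXA n N
  obtain ⟨hS, -, hlin, hrot, hder⟩ := hXA n
  obtain ⟨C4, hC4, h4⟩ := hrot N
  obtain ⟨C5, hC5, h5⟩ := hder N
  refine ⟨C4 * C5, mul_nonneg hC4 hC5, ?_⟩
  intro a b φ t B hab hφ hB w hw x hx
  have hx0 : x ≠ 0 := by
    rintro rfl
    rw [norm_zero] at hx
    exact zero_ne_one hx
  obtain ⟨hiso, -, hzero, -⟩ := hA n a b hab
  -- the rotated function
  have hne : ∀ (s : ℝ) (y : E n), y ≠ 0 → rp a b s y ≠ 0 := by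
    intro s y hy
    obtain ⟨θ, -, hθ⟩ := hiso s
    rw [← hθ y]
    intro h
    exact hy ((LinearIsometryEquiv.map_eq_zero_iff θ).1 h)
  have hF : ContDiffOn ℝ ∞ (fun p : ℝ × E n => φ (rp a b p.1 p.2)) (U n) :=
    hφ.smooth.comp (rp_smooth a b).contDiffOn fun p hp => hne p.1 p.2 hp
  have hDF : ∀ (s : ℝ) (y : E n), y ≠ 0 →
      fderiv ℝ (fun p : ℝ × E n => φ (rp a b p.1 p.2)) (s, y) (1, 0) =
        Xd a b φ (rp a b s y) := by
    intro s y hy
    have h1 := ds hF hy s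
    have h2 : HasFDerivAt φ (fderiv ℝ φ (rp a b s y)) (rp a b s y) :=
      ((hφ.smooth.contDiffAt (_root_.isOpen_ne.mem_nhds (hne s y hy))).differentiableAt
        (by simp)).hasFDerivAt
    have h3 := h2.comp_hasDerivAt s (rp_deriv a b y hab s)
    exact h1.unique h3
  -- the bound of the derivative
  have hbd : ∀ s : ℝ, ‖Xw w (fun y => fderiv ℝ (fun p : ℝ × E n => φ (rp a b p.1 p.2)) (s, y)
      (1, 0)) x‖ ≤ C4 * (C5 * B) := by
    intro s
    rw [xw_congr (hDF s) w x hx0, Real.norm_eq_abs]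
    obtain ⟨θ, -, hθ⟩ := hiso s
    have h1 := h4 θ (Xd a b φ) (C5 * B) (hS a b φ hφ) (h5 a b φ B hab.1 hab.2.1 hφ hB)
    have h2 := h1 w hw x hx
    have h3 : (fun z => Xd a b φ (θ z)) = fun y => Xd a b φ (rp a b s y) := by
      funext y
      rw [hθ y]
    rw [h3] at h2
    exact h2
  have hmv := Convex.norm_image_sub_le_of_norm_hasDerivWithin_le
    (f := fun s => Xw w (fun y => φ (rp a b s y)) x) (s := Set.univ) (x := 0) (y := t)
    (fun s _ => ((xw_fam hF w).2 x hx0 s).hasDerivWithinAt) (fun s _ => hbd s) convex_univ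
    (Set.mem_univ _) (Set.mem_univ _)
  have hz : (fun y => φ (rp a b 0 y)) = φ := by
    funext y
    rw [hzero y]
  -- linearity
  obtain ⟨θ, -, hθ⟩ := hiso t
  have hS1 : S1 (fun z => φ (rp a b t z)) := by
    refine ⟨fun c hc z => ?_, ?_⟩
    · rw [← hθ, ← hθ, map_smul, hφ.hom c hc]
    · refine hφ.smooth.comp (f := fun z => rp a b t z) ?_ fun z hz => hne t z hz
      exact ((rp_smooth a b).comp (contDiff_const.prodMk contDiff_id)).contDiffOn
  have hS2 : S1 (fun z => (-1) * φ z) := by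
    refine ⟨fun c hc z => ?_, ?_⟩
    · rw [hφ.hom c hc]; ring
    · exact contDiffOn_const.mul hφ.smooth
  have e1 := (hlin w (fun z => φ (rp a b t z)) (fun z => (-1) * φ z) 1 hS1 hS2 x hx0).1
  have e2 := (hlin w φ φ (-1) hφ hφ x hx0).2
  rw [e1, e2]
  rw [hz] at hmv
  rw [Real.norm_eq_abs, sub_zero, Real.norm_eq_abs] at hmv
  calc |Xw w (fun z => φ (rp a b t z)) x + -1 * Xw w φ x|
      = |Xw w (fun z => φ (rp a b t z)) x - Xw w φ x| := by congr 1; ring
    _ ≤ C4 * (C5 * B) * |t| := hmv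
    _ = C4 * C5 * |t| * B := by ring

end Pool.Agent.Helper48.PM
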